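import Pool.Agent.Helper50.AY.StB

set_option autoImplicit false

namespace Pool.Agent.Helper39.AY

open Pool.Agent.Helper50.AY Pool.Agent.Helper43.GD Polynomial

private lemma pow_iter {K : Type} [Field K] (x : K) (a c : ℕ) (h : x ^ a = x) : x ^ (a ^ c) = x := by
  induction c with
  | zero => simp
  | succ c ih => rw [pow_succ, pow_mul, ih, h]

/-- existence of `x` with `x^q = x + 1/2` -/
private lemma exists_x (p : ℕ) [hp : Fact p.Prime] (n : ℕ) (h5 : 5 ≤ p) (K : Type) [Field K] [Finite K]
    [Algebra (ZMod p) K] (hc : Nat.card K = p ^ (p ^ (n + 1))) :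
    ∃ x : K, 2 * x ^ (p ^ (p ^ n)) = 2 * x + 1 := by
  classical
  haveI : CharP K p := charP_of_injective_algebraMap (algebraMap (ZMod p) K).injective p
  haveI : ExpChar K p := ExpChar.prime hp.out
  set q := p ^ (p ^ n) with hq
  let θ : K →+* K := iterateFrobenius K p (p ^ n)
  have hθ : ∀ y, θ y = y ^ q := fun y => iterateFrobenius_def p (p ^ n) y
  let T : Module.End (ZMod p) K := θ.toAddMonoidHom.toZModLinearMap p
  have hT : ∀ y, T y = y ^ q := fun y => hθ y
  haveI : CharP (Module.End (ZMod p) K) p :=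
    charP_of_injective_algebraMap (algebraMap (ZMod p) (Module.End (ZMod p) K)).injective p
  have hTj : ∀ (j : ℕ) (y : K), (T ^ j) y = y ^ (q ^ j) := by
    intro j
    induction j with
    | zero => intro y; simp
    | succ j ih =>
      intro y
      rw [pow_succ', Module.End.mul_apply, ih, hT, ← pow_mul, ← pow_succ]
  have hqp : q ^ p = Nat.card K := by
    rw [hc, hq, ← pow_mul, ← pow_succ]
  have hTp : T ^ p = 1 := by
    ext y
    rw [hTj, hqp, Module.End.one_apply]
    haveI := Fintype.ofFinite K
    rw [Nat.card_eq_fintype_card, FiniteField.pow_card]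
  set D : Module.End (ZMod p) K := T - 1 with hD
  have hDp : D ^ p = 0 := by
    rw [hD, sub_pow_char_of_commute p (Commute.one_right T), hTp, one_pow, sub_self]
  have hDy : ∀ y, D y = y ^ q - y := fun y => by rw [hD, LinearMap.sub_apply, hT, Module.End.one_apply]
  have hp1 : 1 < p := hp.out.one_lt
  have hq1 : 1 < q := by
    rw [hq]
    exact Nat.one_lt_pow (pow_ne_zero _ (by omega)) hp1
  have hD1 : D ^ 1 ≠ 0 := by
    intro h0
    rw [pow_one] at h0
    haveI := Fintype.ofFinite K
    have hroot : ∀ y : K, y ^ q - y = 0 := fun y => by rw [← hDy, h0]; rfl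
    have hlt : q < Nat.card K := by
      rw [← hqp]
      calc q = q ^ 1 := (pow_one q).symm
        _ < q ^ p := Nat.pow_lt_pow_right hq1 hp1
    have hdeg : ((X : K[X]) ^ q - X).natDegree = q := FiniteField.X_pow_card_sub_X_natDegree_eq K hq1
    have hz := Polynomial.eq_zero_of_natDegree_lt_card_of_eval_eq_zero' ((X : K[X]) ^ q - X) Finset.univ
      (fun y _ => by simp [hroot y]) (by rw [hdeg, Finset.card_univ, ← Nat.card_eq_fintype_card]; exact hlt)
    rw [hz] at hdeg
    simp at hdeg
    omega
  have hex : ∃ k, D ^ k = 0 := ⟨p, hDp⟩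
  set k := Nat.find hex with hk
  have hk0 : D ^ k = 0 := Nat.find_spec hex
  have hk2 : 2 ≤ k := by
    rcases Nat.lt_or_ge k 2 with h | h
    · exfalso
      interval_cases hh : k
      · rw [pow_zero] at hk0
        exact one_ne_zero hk0
      · exact hD1 hk0
    · exact h
  have hkm : D ^ (k - 1) ≠ 0 := Nat.find_min hex (by omega)
  obtain ⟨y0, hy0⟩ : ∃ y0, (D ^ (k - 1)) y0 ≠ 0 := by
    by_contra hcon
    push Not at hcon
    exact hkm (LinearMap.ext fun y => by rw [hcon y]; rfl)
  set z := (D ^ (k - 1)) y0 with hz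
  set y1 := (D ^ (k - 2)) y0 with hy1
  have hDz : D z = 0 := by
    rw [hz, ← Module.End.mul_apply, ← pow_succ', show k - 1 + 1 = k from by omega, hk0]
    rfl
  have hDy1 : D y1 = z := by
    rw [hy1, hz, ← Module.End.mul_apply, ← pow_succ', show k - 2 + 1 = k - 1 from by omega]
  have h2 : (2 : K) ≠ 0 := by
    have h := (CharP.cast_eq_zero_iff K p 2).not.2 (fun h => by
      have := Nat.le_of_dvd (by norm_num) h
      omega)
    exact_mod_cast h
  have h2q : (2 : K) ^ q = 2 := by
    have h := map_ofNat θ 2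
    rwa [hθ] at h
  have hzq : z ^ q = z := by
    have h := hDy z
    rw [hDz] at h
    exact (sub_eq_zero.1 h.symm)
  have hy1q : y1 ^ q = y1 + z := by
    have h := hDy y1
    rw [hDy1] at h
    rw [h]
    ring
  refine ⟨y1 / (2 * z), ?_⟩
  rw [div_pow, mul_pow, h2q, hzq, hy1q]
  field_simp

theorem hTA : StTA := by
  classical
  intro p hp n h5
  set m := p ^ (n + 1) with hm
  have hm0 : m ≠ 0 := by
    rw [hm]
    exact pow_ne_zero _ hp.out.ne_zero
  haveI hfin : Finite (GaloisField p m) :=
    Nat.finite_of_card_ne_zero (by rw [GaloisField.card p m hm0]; exact pow_ne_zero _ hp.out.ne_zero)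
  obtain ⟨x, hx⟩ := exists_x p n h5 (GaloisField p m) (GaloisField.card p m hm0)
  have hx0 : x ≠ 0 := by
    rintro rfl
    have hpos : p ^ (p ^ n) ≠ 0 := pow_ne_zero _ hp.out.ne_zero
    rw [zero_pow hpos] at hx
    simp at hx
  refine ⟨Units.mk0 x hx0, by simpa using hx, ?_⟩
  rw [Units.val_mk0]
  -- the field generated by x is everything
  have halg : IsAlgebraic (ZMod p) x := Algebra.IsAlgebraic.isAlgebraic x
  have htop : IntermediateField.adjoin (ZMod p) {x} = ⊤ := by
    refine IntermediateField.eq_of_le_of_finrank_eq le_top ?_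
    rw [IntermediateField.finrank_top', GaloisField.finrank p hm0]
    set F := IntermediateField.adjoin (ZMod p) {x} with hF
    have hdvd : Module.finrank (ZMod p) F ∣ p ^ (n + 1) := by
      have h := Module.finrank_mul_finrank (ZMod p) F (GaloisField p m)
      rw [GaloisField.finrank p hm0] at h
      exact ⟨_, h.symm⟩
    obtain ⟨i, hi, hi'⟩ := (Nat.dvd_prime_pow hp.out).1 hdvd
    rcases Nat.lt_or_ge i (n + 1) with hlt | hge
    · exfalso
      haveI : Fintype F := Fintype.ofFinite F
      have hcard : Fintype.card F = p ^ (p ^ i) := by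
        rw [Module.card_eq_pow_finrank (K := ZMod p) (V := F), ZMod.card, hi']
      let xF : F := ⟨x, IntermediateField.mem_adjoin_simple_self (ZMod p) x⟩
      have h1 : xF ^ (p ^ (p ^ i)) = xF := by
        rw [← hcard]
        exact FiniteField.pow_card xF
      have h2 : x ^ (p ^ (p ^ i)) = x := congrArg Subtype.val h1
      have h3 : x ^ (p ^ (p ^ n)) = x := by
        have h4 := pow_iter x (p ^ (p ^ i)) (p ^ (n - i)) h2
        rwa [← pow_mul, ← pow_add, show i + (n - i) = n from by omega] at h4
      rw [h3] at hx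
      simp at hx
    · have : i = n + 1 := le_antisymm hi hge
      rw [hi', this, hm]
  have hadj : Algebra.adjoin (ZMod p) {x} = ⊤ := by
    have h := IntermediateField.adjoin_simple_toSubalgebra_of_isAlgebraic halg
    rw [htop] at h
    rw [← h]
    rfl
  intro N h1 hs y
  have hpow : ∀ i : ℕ, x ^ i ∈ N := by
    intro i
    induction i with
    | zero => simpa using h1
    | succ i ih => rw [pow_succ']; exact hs _ ih
  have hy : y ∈ Algebra.adjoin (ZMod p) {x} := by rw [hadj]; exact Algebra.mem_top
  rw [Algebra.adjoin_singleton_eq_range_aeval] at hy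
  obtain ⟨P, hP⟩ := hy
  have hP' : aeval x P = y := hP
  rw [← hP', Polynomial.aeval_eq_sum_range]
  refine AddSubgroup.sum_mem N fun i _ => ?_
  have hc : P.coeff i • x ^ i = (P.coeff i).val • x ^ i := by
    rw [Algebra.smul_def, nsmul_eq_mul]
    congr 1
    conv_lhs => rw [← ZMod.natCast_zmod_val (P.coeff i)]
    rw [map_natCast]
  rw [hc]
  exact AddSubgroup.nsmul_mem N (hpow i) _

end Pool.Agent.Helper39.AY

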